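import Pool.Agent.H697.LC.Sound

/-!
# Completeness of the algorithm for projection games without an induced forest
-/

namespace Pool.Agent.H697.LC

open Pool.Agent.NPC Pool.Agent.H697.Forest Pool.Agent.H697.UG Finset

/-- Existence of a good candidate. -/
theorem exists_cand {α : Type} [Fintype α] (H : SimpleGraph α) (hH : H.IsAcyclic) {K d q₁ q₂ : ℕ}
    (hK : 0 < K) {I R : Game} (hG : IsGame d q₁ q₂ I) (hS : Simple I)
    (hreg : AlmostRegular K I) (hfree : IsEmpty (H ↪g cgraph I)) {X Y : Finset ℕ}
    (hR : R = I.filter (fun e => decide (e.1.1 ∉ X ∧ e.1.2 ∉ Y))) (hlen : I.length ≤ 2 * R.length)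
    {L : ℕ → Fin q₁} {M : ℕ → Fin q₂}
    (hsat : (1 - 1 / (24 * (base (Fintype.card α) K : ℝ) ^ 2)) * I.length ≤ numSat I L M) :
    ∃ c ∈ cands q₁ R, test q₁ (4 * base (Fintype.card α) K ^ 2) I R c = true := by
  classical
  have hq₁ : 0 < q₁ := lt_of_le_of_lt (Nat.zero_le _) (L 0).2
  set B := base (Fintype.card α) K with hB
  have hBpos : 0 < B := base_pos hK
  have hBr : (1 : ℝ) ≤ B := by exact_mod_cast hBpos
  have hRI : R.Sublist I := by rw [hR]; exact List.filter_sublist
  have hSR : Simple R := hS.sublist (hRI.map _)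
  have hIpos : 0 < I.length := List.length_pos_iff.2 hG.1
  have hRpos : 0 < R.length := by omega
  have hRmem : ∀ e, e ∈ R ↔ e ∈ I ∧ e.1.1 ∉ X ∧ e.1.2 ∉ Y := by
    intro e
    rw [hR, List.mem_filter, decide_eq_true_eq]
  -- the maximal degrees
  have hIne : I.toFinset.Nonempty := by
    obtain ⟨e, he⟩ := List.exists_mem_of_ne_nil I hG.1
    exact ⟨e, List.mem_toFinset.2 he⟩
  obtain ⟨ea, hea, hamax⟩ := Finset.exists_max_image I.toFinset (fun e => degL I e.1.1) hIne
  obtain ⟨eb, heb, hbmax⟩ := Finset.exists_max_image I.toFinset (fun e => degR I e.1.2) hIne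
  rw [List.mem_toFinset] at hea heb
  set a := degL I ea.1.1 with ha
  set b := degR I eb.1.2 with hb
  have ha' : ∀ u, degL I u ≤ a := by
    intro u
    by_cases h : ∃ e ∈ I, e.1.1 = u
    · obtain ⟨e, he, rfl⟩ := h
      exact hamax e (List.mem_toFinset.2 he)
    · have : degL I u = 0 := by
        unfold degL
        rw [List.length_eq_zero_iff, List.filter_eq_nil_iff]
        intro e he
        rw [decide_eq_true_eq]
        exact fun h2 => h ⟨e, he, h2⟩
      omega
  have hb' : ∀ u, degR I u ≤ b := by
    intro u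
    by_cases h : ∃ e ∈ I, e.1.2 = u
    · obtain ⟨e, he, rfl⟩ := h
      exact hbmax e (List.mem_toFinset.2 he)
    · have : degR I u = 0 := by
        unfold degR
        rw [List.length_eq_zero_iff, List.filter_eq_nil_iff]
        intro e he
        rw [decide_eq_true_eq]
        exact fun h2 => h ⟨e, he, h2⟩
      omega
  have hapos : 0 < a := by
    rw [ha]
    unfold degL
    exact List.length_pos_of_mem (List.mem_filter.2 ⟨hea, by simp⟩)
  have hbpos : 0 < b := by
    rw [hb]
    unfold degR
    exact List.length_pos_of_mem (List.mem_filter.2 ⟨heb, by simp⟩)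
  set F := edges R with hF
  have hFcard : F.card = R.length := card_edges hSR
  have hFne : F.Nonempty := Finset.card_pos.1 (by omega)
  have hdu : ∀ u, (F.filter fun e => e.1 = u).card ≤ a := by
    intro u
    rw [← card_edges_filter hSR (fun e => decide (e.1.1 = u)) (fun p => p.1 = u) (by simp)]
    exact (degL_le R I hRI u).trans (ha' u)
  have hdv : ∀ v, (F.filter fun e => e.2 = v).card ≤ b := by
    intro v
    rw [← card_edges_filter hSR (fun e => decide (e.1.2 = v)) (fun p => p.2 = v) (by simp)]
    exact (degR_le R I hRI v).trans (hb' v)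
  have hu : (a : ℝ) * (F.image Prod.fst).card ≤ (2 * K) * F.card := by
    have h1 := hreg.1 ea.1.1
    have h2 : (F.image Prod.fst).card ≤ (I.map fun e => e.1.1).toFinset.card := by
      refine Finset.card_le_card ?_
      intro u hu
      obtain ⟨p, hp, rfl⟩ := Finset.mem_image.1 hu
      obtain ⟨e, he, rfl⟩ := mem_edges.1 hp
      exact List.mem_toFinset.2 (List.mem_map.2 ⟨e, hRI.subset he, rfl⟩)
    have h3 : a * (F.image Prod.fst).card ≤ 2 * K * F.card := by
      rw [hFcard]
      calc a * (F.image Prod.fst).card ≤ a * (I.map fun e => e.1.1).toFinset.card :=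
            Nat.mul_le_mul_left _ h2
        _ ≤ K * I.length := h1
        _ ≤ K * (2 * R.length) := Nat.mul_le_mul_left _ hlen
        _ = 2 * K * R.length := by ring
    exact_mod_cast h3
  have hv : (b : ℝ) * (F.image Prod.snd).card ≤ (2 * K) * F.card := by
    have h1 := hreg.2 eb.1.2
    have h2 : (F.image Prod.snd).card ≤ (I.map fun e => e.1.2).toFinset.card := by
      refine Finset.card_le_card ?_
      intro u hu
      obtain ⟨p, hp, rfl⟩ := Finset.mem_image.1 hu
      obtain ⟨e, he, rfl⟩ := mem_edges.1 hp
      exact List.mem_toFinset.2 (List.mem_map.2 ⟨e, hRI.subset he, rfl⟩)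
    have h3 : b * (F.image Prod.snd).card ≤ 2 * K * F.card := by
      rw [hFcard]
      calc b * (F.image Prod.snd).card ≤ b * (I.map fun e => e.1.2).toFinset.card :=
            Nat.mul_le_mul_left _ h2
        _ ≤ K * I.length := h1
        _ ≤ K * (2 * R.length) := Nat.mul_le_mul_left _ hlen
        _ = 2 * K * R.length := by ring
    exact_mod_cast h3
  have hKr : (0 : ℝ) < K := by exact_mod_cast hK
  have har : (0 : ℝ) < a := by exact_mod_cast hapos
  have hbr : (0 : ℝ) < b := by exact_mod_cast hbpos
  have hRr : (0 : ℝ) < R.length := by exact_mod_cast hRpos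
  -- many closed walks
  have hQ : (1 / (B : ℝ) ^ 2) / 2 * (F.card * a * b) < Q F := by
    by_contra hcon
    push Not at hcon
    obtain ⟨f, hf1, hf2, hf3, hf4⟩ := exists_forest_bip H hH F hFne (K := 2 * K) har hbr
      (by positivity) (fun u => by exact_mod_cast hdu u) (fun v => by exact_mod_cast hdv v)
      hu hv (κ := 1 / (B : ℝ) ^ 2) (by positivity) hcon (small_ineq _ K hK)
    refine hfree.false ⟨⟨f, hf1⟩, fun {x y} => ?_⟩
    rw [← hf2 x y]
    have key : ∀ u v, u ∈ F.image Prod.fst → v ∈ F.image Prod.snd →
        ((u, v) ∈ I.map Prod.fst ↔ (u, v) ∈ F) := by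
      intro u v hu hv
      obtain ⟨p, hp, hpu⟩ := Finset.mem_image.1 hu
      obtain ⟨p', hp', hpv⟩ := Finset.mem_image.1 hv
      obtain ⟨e, he, rfl⟩ := mem_edges.1 hp
      obtain ⟨e', he', rfl⟩ := mem_edges.1 hp'
      have h1 := ((hRmem e).1 he).2.1
      have h2 := ((hRmem e').1 he').2.2
      rw [hpu] at h1
      rw [hpv] at h2
      rw [mem_edges, List.mem_map]
      constructor
      · rintro ⟨g, hg, hg2⟩
        refine ⟨g, (hRmem g).2 ⟨hg, ?_, ?_⟩, hg2⟩
        · rw [hg2]; exact h1
        · rw [hg2]; exact h2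
      · rintro ⟨g, hg, hg2⟩
        exact ⟨g, hRI.subset hg, hg2⟩
    change (cgraph I).Adj (f x) (f y) ↔ (bip F).Adj (f x) (f y)
    cases hx : f x with
    | inl u =>
      cases hy : f y with
      | inl v => exact Iff.rfl
      | inr v => exact key u v (hf3 x u hx) (hf4 y v hy)
    | inr u =>
      cases hy : f y with
      | inl v => exact key v u (hf3 y v hy) (hf4 x u hx)
      | inr v => exact Iff.rfl
  -- unsatisfied edges
  set SP : ℕ × ℕ → Prop := fun p => ∃ e ∈ I, e.1 = p ∧ Sat L M e with hSP
  set U := F.filter fun p => ¬ SP p with hU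
  have hUcard : (U.card : ℝ) ≤ I.length / (24 * (B : ℝ) ^ 2) := by
    have h1 : U.card = (R.filter fun e => !(decide (Sat L M e))).length := by
      refine (card_edges_filter hSR _ _ fun e he => ?_).symm
      rw [Bool.not_eq_true', decide_eq_false_iff_not, not_iff_not]
      constructor
      · intro h
        exact ⟨e, hRI.subset he, rfl, h⟩
      · rintro ⟨e', he', h2, h3⟩
        rwa [unique_edge hS (hRI.subset he) he' h2.symm]
    have h2 : (R.filter fun e => !(decide (Sat L M e))).length ≤
        (I.filter fun e => !(decide (Sat L M e))).length := (hRI.filter _).length_le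
    have h3 := length_filter_not I (fun e => decide (Sat L M e))
    have h4 : (U.card : ℝ) + numSat I L M ≤ I.length := by
      have : U.card + numSat I L M ≤ I.length := by
        unfold numSat
        omega
      exact_mod_cast this
    have h5 : (1 - 1 / (24 * (B : ℝ) ^ 2)) * I.length =
        I.length - I.length / (24 * (B : ℝ) ^ 2) := by ring
    linarith
  have hbad := bad_le F U a b hdu hdv
  set G4 := (N4 F).filter fun p => (p.2.1, p.1.2) ∉ U ∧ (p.1.1, p.2.2) ∉ U ∧ p.2 ∉ U with hG4
  have hG4card : (F.card : ℝ) * a * b < 4 * (B : ℝ) ^ 2 * G4.card := by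
    have h1 : Q F ≤ G4.card + 3 * (a * b * U.card) := (Q_le F).trans (by exact_mod_cast hbad)
    have h2 : (3 : ℝ) * (a * b * U.card) ≤ 3 * (a * b * (2 * R.length / (24 * (B : ℝ) ^ 2))) := by
      have : (U.card : ℝ) ≤ 2 * R.length / (24 * (B : ℝ) ^ 2) := by
        refine hUcard.trans ?_
        gcongr
        exact_mod_cast hlen
      gcongr
    have h3 : (3 : ℝ) * (a * b * (2 * R.length / (24 * (B : ℝ) ^ 2))) =
        (R.length * a * b) / (4 * (B : ℝ) ^ 2) := by
      field_simp
      ring
    have h4 : (1 / (B : ℝ) ^ 2) / 2 * (F.card * a * b) =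
        2 * ((R.length * a * b) / (4 * (B : ℝ) ^ 2)) := by
      rw [hFcard]
      field_simp
      ring
    have h5 : (R.length * a * b : ℝ) / (4 * (B : ℝ) ^ 2) < G4.card := by linarith
    rw [div_lt_iff₀ (by positivity)] at h5
    rw [hFcard]
    linarith
  let cd : ℕ × ℕ → Cand := fun p => (p, (L p.1 : ℕ))
  have hscore : ∀ p0 ∈ F, (F.filter fun p => (p0, p) ∈ G4).card ≤ score q₁ R (cd p0) := by
    intro p0 hp0
    unfold score
    rw [← card_edges_filter hSR (fun e => decide ((p0, e.1) ∈ G4)) (fun p => (p0, p) ∈ G4)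
      (by simp)]
    set S := R.filter fun e => decide ((p0, e.1) ∈ G4) with hSdef
    have good : ∀ p ∈ F, p ∉ U → ∃ g ∈ R, g.1 = p ∧ Sat L M g := by
      intro p hp hpU
      obtain ⟨g, hg, hg2⟩ := mem_edges.1 hp
      have h8 : SP p := by
        by_contra h9
        exact hpU (Finset.mem_filter.2 ⟨hp, h9⟩)
      obtain ⟨g', hg', h9, h10⟩ := h8
      have : g = g' := unique_edge hS (hRI.subset hg) hg' (hg2.trans h9.symm)
      subst this
      exact ⟨g, hg, hg2, h10⟩
    have hSmem : ∀ e ∈ S, (∃ e1 ∈ R, e1.1 = (e.1.1, p0.2)) ∧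
        agree R (cd p0) (L e.1.1) e = true := by
      intro e he'
      obtain ⟨he, h⟩ := List.mem_filter.1 he'
      rw [decide_eq_true_eq] at h
      simp only [hG4, N4, Finset.mem_filter, Finset.mem_product] at h
      obtain ⟨⟨⟨h1, h2⟩, h3, h4⟩, h5, h6, h7⟩ := h
      obtain ⟨e1, he1, k1, k2⟩ := good _ h3 h5
      obtain ⟨e2, he2, k3, k4⟩ := good _ h4 h6
      obtain ⟨e3, he3, k5, k6⟩ := good _ h2 h7
      have : e3 = e := unique_edge hSR he3 he k5
      subst this
      refine ⟨⟨e1, he1, k1⟩, ?_⟩
      rw [agree_iff]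
      refine ⟨e2, he2, k3, M e3.1.2, k6, ?_⟩
      unfold Sat at k4
      rw [k3] at k4
      exact k4
    set A : Finset ℕ := (S.map fun e => e.1.1).toFinset with hA
    have hAmem : ∀ u, u ∈ A → ∃ e1 ∈ R, e1.1 = (u, p0.2) := by
      intro u hu
      rw [hA, List.mem_toFinset, List.mem_map] at hu
      obtain ⟨e, he, rfl⟩ := hu
      exact (hSmem e he).1
    have h1 : S.length = ∑ u ∈ A, (S.filter fun e => decide (e.1.1 = u)).length := by
      rw [← length_filter_mem S (fun e => e.1.1) A]
      congr 1
      symm
      rw [List.filter_eq_self]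
      intro e he
      rw [decide_eq_true_eq, hA, List.mem_toFinset]
      exact List.mem_map.2 ⟨e, he, rfl⟩
    have h2 : ∑ u ∈ A, ((R.filter (consistent q₁ R (cd p0))).filter fun e =>
        decide (e.1.1 = u)).length ≤ (R.filter (consistent q₁ R (cd p0))).length := by
      rw [← length_filter_mem _ (fun e => e.1.1) A]
      exact List.length_filter_le _ _
    rw [h1]
    refine le_trans (Finset.sum_le_sum fun u hu => ?_) h2
    obtain ⟨x, hx⟩ := exists_bestL hq₁ R (cd p0) u
    obtain ⟨hxq, hxmax⟩ := bestL_spec hx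
    have h3 : (S.filter fun e => decide (e.1.1 = u)).length ≤ cnt R (cd p0) u (L u) := by
      unfold cnt
      rw [hSdef, List.filter_filter]
      refine length_filter_le R _ _ fun e he h => ?_
      rw [Bool.and_eq_true, decide_eq_true_eq, decide_eq_true_eq] at h
      have h4 : e ∈ S := List.mem_filter.2 ⟨he, decide_eq_true h.2⟩
      have h5 := (hSmem e h4).2
      rw [h.1] at h5
      rw [Bool.and_eq_true, decide_eq_true_eq]
      exact ⟨h.1, h5⟩
    refine h3.trans ((hxmax _ (L u).2).trans ?_)
    unfold cnt
    rw [List.filter_filter]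
    refine length_filter_le R _ _ fun e he h => ?_
    rw [Bool.and_eq_true, decide_eq_true_eq] at h
    rw [Bool.and_eq_true, decide_eq_true_eq, consistent_iff, h.1]
    exact ⟨rfl, hAmem u hu, x, hx, h.2⟩
  by_contra hno
  push Not at hno
  have hlt : ∀ p0 ∈ F, 4 * B ^ 2 * score q₁ R (cd p0) < a * b := by
    intro p0 hp0
    obtain ⟨e, he, rfl⟩ := mem_edges.1 hp0
    have h1 := hno (cd e.1) (by
      simp only [cands, List.mem_flatMap, List.mem_map, List.mem_range]
      exact ⟨e, he, _, (L e.1.1).2, rfl⟩)
    by_contra h2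
    push Not at h2
    apply h1
    simp only [test, List.all_eq_true, decide_eq_true_eq]
    intro e1 he1 e2 he2
    exact (Nat.mul_le_mul (ha' _) (hb' _)).trans h2
  have hfin : 4 * B ^ 2 * G4.card ≤ F.card * (a * b) := by
    have h1 : G4.card = ∑ p0 ∈ F, (F.filter fun p => (p0, p) ∈ G4).card := by
      rw [Finset.card_eq_sum_card_fiberwise (f := Prod.fst) (t := F)]
      · refine Finset.sum_congr rfl fun p0 _ => ?_
        refine Finset.card_bij' (i := fun p _ => p.2) (j := fun p _ => (p0, p)) ?_ ?_ ?_ ?_
        · rintro ⟨x, y⟩ h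
          simp only [Finset.mem_filter] at h ⊢
          obtain ⟨h2, rfl⟩ := h
          refine ⟨?_, h2⟩
          have := (Finset.mem_filter.1 h2).1
          exact (Finset.mem_product.1 (Finset.mem_filter.1 this).1).2
        · intro y h
          exact Finset.mem_filter.2 ⟨(Finset.mem_filter.1 h).2, rfl⟩
        · rintro ⟨x, y⟩ h
          simp only [Finset.mem_filter] at h
          obtain ⟨h2, rfl⟩ := h
          rfl
        · intro y h
          rfl
      · intro p hp
        have := (Finset.mem_filter.1 (Finset.mem_coe.1 hp)).1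
        exact Finset.mem_coe.2 (Finset.mem_product.1 (Finset.mem_filter.1 this).1).1
    rw [h1, Finset.mul_sum]
    calc ∑ p0 ∈ F, 4 * B ^ 2 * (F.filter fun p => (p0, p) ∈ G4).card
        ≤ ∑ p0 ∈ F, a * b := Finset.sum_le_sum fun p0 hp0 =>
          (Nat.mul_le_mul_left _ (hscore p0 hp0)).trans (hlt p0 hp0).le
      _ = F.card * (a * b) := by rw [Finset.sum_const, smul_eq_mul]
  have hfin' : 4 * (B : ℝ) ^ 2 * G4.card ≤ F.card * (a * b) := by exact_mod_cast hfin
  nlinarith

/-- Completeness. -/
theorem complete {α : Type} [Fintype α] (H : SimpleGraph α) (hH : H.IsAcyclic) {K d q₁ q₂ : ℕ}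
    (hK : 0 < K) {I : Game} (hG : IsGame d q₁ q₂ I) (hS : Simple I)
    (hreg : AlmostRegular K I) (hfree : IsEmpty (H ↪g cgraph I)) {L : ℕ → Fin q₁} {M : ℕ → Fin q₂}
    (hsat : (1 - 1 / (24 * (base (Fintype.card α) K : ℝ) ^ 2)) * I.length ≤ numSat I L M) :
    accept q₁ (4 * base (Fintype.card α) K ^ 2) I = true := by
  set C := 4 * base (Fintype.card α) K ^ 2 with hC
  have hIpos : 0 < I.length := List.length_pos_iff.2 hG.1
  have hq₁ : 0 < q₁ := lt_of_le_of_lt (Nat.zero_le _) (L 0).2
  have hq₂ : 0 < q₂ := lt_of_le_of_lt (Nat.zero_le _) (M 0).2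
  have key : ∀ k, 2 * ((step q₁ C I)^[k] I).length < I.length ∨
      ((step q₁ C I)^[k] I).length + k ≤ I.length := by
    intro k
    induction k with
    | zero => right; simp
    | succ k ih =>
      rw [Function.iterate_succ_apply']
      set R := (step q₁ C I)^[k] I with hR
      have hle := (step_sublist q₁ C I R).length_le
      rcases ih with ih | ih
      · left; omega
      · by_cases hsmall : 2 * R.length < I.length
        · left; omega
        · right
          obtain ⟨L', M', X, Y, hR', -⟩ := rest_inv (C := C) hq₁ hq₂ hG hS k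
          obtain ⟨c, hc, htest⟩ := exists_cand H hH hK hG hS hreg hfree (R := R) hR'
            (by omega) hsat
          have hlt : (step q₁ C I R).length < R.length := by
            unfold step
            cases hd : ((cands q₁ R).filter (test q₁ C I R)).head? with
            | none =>
              rw [List.head?_eq_none_iff] at hd
              have : c ∈ (cands q₁ R).filter (test q₁ C I R) := List.mem_filter.2 ⟨hc, htest⟩
              rw [hd] at this
              simp at this
            | some c' =>
              have hmem := List.mem_of_mem_head? hd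
              rw [List.mem_filter] at hmem
              have hcand := hmem.1
              simp only [cands, List.mem_flatMap, List.mem_map, List.mem_range] at hcand
              obtain ⟨e0, he0, α', -, rfl⟩ := hcand
              have h1 := length_filter_not R (fun e => near R (e0.1, α') e)
              have h2 : 0 < (R.filter fun e => near R (e0.1, α') e).length := by
                refine List.length_pos_of_mem (List.mem_filter.2 ⟨he0, ?_⟩)
                unfold near
                rw [Bool.or_eq_true, hasE_iff]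
                exact Or.inl ⟨e0, he0, rfl⟩
              change (R.filter fun e => !(near R (e0.1, α') e)).length < R.length
              omega
          omega
  unfold accept rest
  rw [decide_eq_true_eq]
  rcases key I.length with h | h <;> omega

end Pool.Agent.H697.LC
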