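import Pool.Agent.H697.Red.Main
import Pool.Agent.H697.LC.Complete

/-!
# Hardness and easiness of restricted d-to-1 games
-/

namespace Pool.Agent.H697.LC

open Pool.Agent.NPC Pool.Agent.H697.Forest Pool.Agent.H697.Exp Pool.Agent.H697.Red
open Pool.Agent.H697.UG (Game Edge Simple AlmostRegular cgraph base base_pos)

/-- The promise problem with yes-instances `Y` and no-instances `N`, restricted to the games with
the property `Cl`, is `NP`-hard under polynomial-time many-one reductions. -/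
def Hard (Cl Y N : Game → Prop) : Prop :=
  ∀ L : Set (List Bool), InNP L → ∃ f : List Bool → List Bool, PolyTime f ∧ ∀ x,
    ∃ I, f x = bits I ∧ Cl I ∧ (x ∈ L → Y I) ∧ (x ∉ L → N I)

/-- Some decision problem in `P` contains all the yes-instances with the property `Cl` and none of
the no-instances with the property `Cl`. -/
def Easy (Cl Y N : Game → Prop) : Prop :=
  ∃ P : Game → Prop, InPP P ∧ ∀ I, Cl I → (Y I → P I) ∧ (N I → ¬ P I)

/-- The game is simple, all degrees on each side are at most `K` times their average, and no `H i`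
is an induced subgraph of the constraint graph. -/
def Free {ι : Type} {V : ι → Type} (H : ∀ i, SimpleGraph (V i)) (K : ℕ) (I : Game) : Prop :=
  Simple I ∧ AlmostRegular K I ∧ ∀ i, IsEmpty (H i ↪g cgraph I)

theorem Hard.collapse {Cl Y N : Game → Prop} (h : Hard Cl Y N) (h' : Easy Cl Y N) :
    ∀ L : Set (List Bool), InNP L → InP L := by
  intro L hL
  obtain ⟨P, hP, hsep⟩ := h'
  obtain ⟨f, hf, hfx⟩ := h L hL
  refine InP.of_reduces ⟨f, hf, fun x => ?_⟩ hP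
  obtain ⟨I, h1, h2, h5, h6⟩ := hfx x
  have hI := hsep I h2
  rw [h1, bits_mem_lang]
  constructor
  · intro hx
    exact hI.1 (h5 hx)
  · intro hacc
    by_contra hx
    exact hI.2 (h6 hx) hacc

theorem Hard.of_reduction {Cl Y N Cl' Y' N' : Game → Prop} (h : Hard Cl Y N)
    {F : Game → Game} (hF : Poly F) (hCl : ∀ I, Cl I → Cl' (F I))
    (hY : ∀ I, Y I → Y' (F I)) (hN : ∀ I, N I → N' (F I)) : Hard Cl' Y' N' := by
  intro L hL
  obtain ⟨f, hf, hfx⟩ := h L hL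
  have h1 := polyTime_opt (Poly.optMap (o := unbits Game) (f := fun _ I => F I) poly_unbits
    (hF.comp (Poly.snd Poly.id)))
  refine ⟨_, H642R2.TMSim.polyTime_comp h1 hf, fun x => ?_⟩
  obtain ⟨I, h2, h3, h5, h6⟩ := hfx x
  refine ⟨F I, ?_, hCl I h3, fun hx => hY I (h5 hx), fun hx => hN I (h6 hx)⟩
  simp only [h2, unbits_bits, Option.map_some]

theorem Hard.mono {Cl Y N Cl' Y' N' : Game → Prop} (h : Hard Cl Y N) (hCl : ∀ I, Cl I → Cl' I)
    (hY : ∀ I, Y I → Y' I) (hN : ∀ I, N I → N' I) : Hard Cl' Y' N' := by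
  intro L hL
  obtain ⟨f, hf, hfx⟩ := h L hL
  refine ⟨f, hf, fun x => ?_⟩
  obtain ⟨I, h2, h3, h5, h6⟩ := hfx x
  exact ⟨I, h2, hCl I h3, fun hx => hY I (h5 hx), fun hx => hN I (h6 hx)⟩

theorem Easy.of_reduction {Cl Y N Cl' Y' N' : Game → Prop} (h : Easy Cl' Y' N')
    {F : Game → Game} (hF : Poly F) (hCl : ∀ I, Cl I → Cl' (F I))
    (hY : ∀ I, Y I → Y' (F I)) (hN : ∀ I, N I → N' (F I)) : Easy Cl Y N := by
  obtain ⟨P, hP, hsep⟩ := h
  refine ⟨fun I => P (F I), InPP.of_poly hP hF fun _ => Iff.rfl, fun I hI => ⟨fun hy => ?_,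
    fun hn => ?_⟩⟩
  · exact (hsep _ (hCl I hI)).1 (hY I hy)
  · exact (hsep _ (hCl I hI)).2 (hN I hn)

theorem Easy.mono {Cl Y N Cl' Y' N' : Game → Prop} (h : Easy Cl' Y' N') (hCl : ∀ I, Cl I → Cl' I)
    (hY : ∀ I, Y I → Y' I) (hN : ∀ I, N I → N' I) : Easy Cl Y N := by
  obtain ⟨P, hP, hsep⟩ := h
  exact ⟨P, hP, fun I hI => ⟨fun hy => (hsep I (hCl I hI)).1 (hY I hy),
    fun hn => (hsep I (hCl I hI)).2 (hN I hn)⟩⟩

theorem up {q₁ q₂ q : ℕ} (h₁ : q₁ ≤ q) (h₂ : q₂ ≤ q) (I : Game) (L : ℕ → Fin q₁)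
    (M : ℕ → Fin q₂) : ∃ L' M' : ℕ → Fin q, UG.numSat I L' M' = numSat I L M :=
  ⟨fun u => Fin.castLE h₁ (L u), fun u => Fin.castLE h₂ (M u), rfl⟩

theorem down {d q₁ q₂ q : ℕ} (hq₁ : 0 < q₁) (hq₂ : 0 < q₂) {I : Game} (hI : IsGame d q₁ q₂ I)
    (L' M' : ℕ → Fin q) : ∃ (L : ℕ → Fin q₁) (M : ℕ → Fin q₂),
      UG.numSat I L' M' ≤ numSat I L M := by
  refine ⟨fun u => if h : (L' u : ℕ) < q₁ then ⟨L' u, h⟩ else ⟨0, hq₁⟩,
    fun u => if h : (M' u : ℕ) < q₂ then ⟨M' u, h⟩ else ⟨0, hq₂⟩, ?_⟩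
  unfold UG.numSat numSat
  refine UG.length_filter_le I _ _ fun e he h => ?_
  rw [decide_eq_true_eq] at h ⊢
  unfold UG.Sat at h
  unfold Sat
  have h1 : (L' e.1.1 : ℕ) < q₁ := by
    rw [← (hI.2 e he).1]
    exact (List.getElem?_eq_some_iff.1 h).1
  have h2 : (M' e.1.2 : ℕ) < q₂ := (hI.2 e he).2.1 _ (List.mem_of_getElem? h)
  beta_reduce
  rw [dif_pos h1, dif_pos h2]
  exact h

/-- The reduction, for d-to-1 games. -/
theorem exists_reduction_LC (d : ℕ) {q₁ q₂ : ℕ} (hq₁ : 0 < q₁) (hq₂ : 0 < q₂) (g : ℕ) (ε : ℝ)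
    {δ δ' : ℝ} (h : δ < δ') (h0 : 0 ≤ δ') (h1 : δ' ≤ 1) :
    ∃ F : Game → Game, Poly F ∧ ∀ I, Simple (F I) ∧ (∀ K, 2 ≤ K → AlmostRegular K (F I)) ∧
      GirthGT (cgraph (F I)) g ∧ (Yes d q₁ q₂ ε I → Yes d q₁ q₂ ε (F I)) ∧
      (No d q₁ q₂ δ I → No d q₁ q₂ δ' (F I)) := by
  have hq : 0 < max q₁ q₂ := lt_max_of_lt_left hq₁
  obtain ⟨F, hF, hFI⟩ := exists_reduction hq g h h0 h1
  refine ⟨F, hF, fun I => ?_⟩
  obtain ⟨h2, h3, h4, h5, h6, h7, h8⟩ := hFI I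
  have hgame : IsGame d q₁ q₂ I → IsGame d q₁ q₂ (F I) := by
    rintro ⟨hne, hI⟩
    refine ⟨h5 hne, fun e he => ?_⟩
    obtain ⟨e', he', heq⟩ := h6 e he
    rw [heq]
    exact hI e' he'
  refine ⟨h2, h3, h4, ?_, ?_⟩
  · rintro ⟨hG, L, M, hLM⟩
    refine ⟨hgame hG, ?_⟩
    obtain ⟨L1, M1, h9⟩ := up (le_max_left q₁ q₂) (le_max_right q₁ q₂) I L M
    obtain ⟨L2, M2, h10⟩ := h7 L1 M1
    obtain ⟨L3, M3, h11⟩ := down hq₁ hq₂ (hgame hG) L2 M2
    refine ⟨L3, M3, ?_⟩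
    have h12 : (0 : ℝ) < I.length := by exact_mod_cast List.length_pos_iff.2 hG.1
    have h13 : (UG.numSat (F I) L2 M2 : ℝ) * I.length = UG.numSat I L1 M1 * (F I).length := by
      exact_mod_cast h10
    have h14 : (0 : ℝ) ≤ (F I).length := by positivity
    have h15 : (1 - ε) * (F I).length * I.length ≤ UG.numSat (F I) L2 M2 * I.length := by
      rw [h13, h9]
      calc (1 - ε) * (F I).length * I.length = (1 - ε) * I.length * (F I).length := by ring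
        _ ≤ numSat I L M * (F I).length := mul_le_mul_of_nonneg_right hLM h14
    have h16 : (1 - ε) * (F I).length ≤ UG.numSat (F I) L2 M2 := le_of_mul_le_mul_right h15 h12
    have h17 : (UG.numSat (F I) L2 M2 : ℝ) ≤ numSat (F I) L3 M3 := by exact_mod_cast h11
    linarith
  · rintro ⟨hG, hno⟩
    refine ⟨hgame hG, fun L M => ?_⟩
    obtain ⟨L1, M1, h9⟩ := up (le_max_left q₁ q₂) (le_max_right q₁ q₂) (F I) L M
    rw [← h9]
    refine h8 (fun L2 M2 => ?_) L1 M1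
    obtain ⟨L3, M3, h11⟩ := down hq₁ hq₂ hG L2 M2
    have h17 : (UG.numSat I L2 M2 : ℝ) ≤ numSat I L3 M3 := by exact_mod_cast h11
    exact h17.trans (hno L3 M3)

theorem isEmpty_of_girth {α : Type} {H : SimpleGraph α} {a : α} {p : H.Walk a a}
    (hp : p.IsCycle) {g : ℕ} (hpg : p.length ≤ g) {β : Type} {G : SimpleGraph β}
    (hG : GirthGT G g) : IsEmpty (H ↪g G) := by
  constructor
  intro φ
  have h1 := hG _ (p.map φ.toHom) (hp.map φ.injective)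
  rw [SimpleGraph.Walk.length_map] at h1
  omega

section
variable {ι : Type} {V : ι → Type} (H : ∀ i, SimpleGraph (V i))

/-- The forest case. -/
theorem easy_of_forest [∀ i, Finite (V i)] {K : ℕ} (hK : 0 < K) {i : ι} (hi : (H i).IsAcyclic)
    {γ : ℝ} (hγ : γ = 1 / (96 * (Nat.card (V i) + 1) ^ 4 * (8 * K) ^ (2 * (Nat.card (V i) + 1))))
    (d : ℕ) {q₁ q₂ : ℕ} (hq₁ : 0 < q₁) (hq₂ : 0 < q₂) :
    Easy (Free H K) (Yes d q₁ q₂ γ) (No d q₁ q₂ γ) := by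
  have := Fintype.ofFinite (V i)
  rw [Nat.card_eq_fintype_card] at hγ
  set B := base (Fintype.card (V i)) K with hB
  have hBpos : 0 < B := base_pos hK
  have hBr : (1 : ℝ) ≤ B := by exact_mod_cast hBpos
  have hγ' : γ = 1 / (24 * (B : ℝ) ^ 2) := by
    rw [hγ, hB]
    unfold base
    push_cast
    congr 1
    ring
  refine ⟨fun I => accept q₁ (4 * B ^ 2) I = true,
    inPP_of (poly_accept q₁ (4 * B ^ 2)) fun _ => Iff.rfl, ?_⟩
  rintro I ⟨hS, hreg, hfree⟩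
  constructor
  · rintro ⟨hG, L, M, hsat⟩
    rw [hγ'] at hsat
    exact complete (H i) hi hK hG hS hreg (hfree i) hsat
  · rintro ⟨hG, hno⟩ hacc
    obtain ⟨L, M, hLM⟩ := sound hq₁ hq₂ hG hS hacc
    have h1 := hno L M
    have h2 : (I.length : ℝ) < 4 * (4 * B ^ 2) * numSat I L M := by exact_mod_cast hLM
    have h3 : (0 : ℝ) < I.length := by exact_mod_cast List.length_pos_iff.2 hG.1
    have h4 : (4 : ℝ) * (4 * B ^ 2) * numSat I L M ≤ 4 * (4 * B ^ 2) * (γ * I.length) := by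
      gcongr
    have h5 : (4 : ℝ) * (4 * B ^ 2) * (γ * I.length) = 16 / 24 * I.length := by
      rw [hγ']
      field_simp
      ring
    linarith

/-- The case without a forest. -/
theorem equiv_of_no_forest [Finite ι] {K : ℕ} (hH : ∀ i, ¬ (H i).IsAcyclic) (hK2 : 2 ≤ K)
    (d : ℕ) {q₁ q₂ : ℕ} (hq₁ : 0 < q₁) (hq₂ : 0 < q₂) (ε : ℝ) {δ δ' : ℝ} (h0 : 0 ≤ δ)
    (h1 : δ < δ') (h2 : δ' ≤ 1) :
    (Hard (fun _ => True) (Yes d q₁ q₂ ε) (No d q₁ q₂ δ) →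
      Hard (Free H K) (Yes d q₁ q₂ ε) (No d q₁ q₂ δ')) ∧
    (Easy (Free H K) (Yes d q₁ q₂ ε) (No d q₁ q₂ δ') →
      Easy (fun _ => True) (Yes d q₁ q₂ ε) (No d q₁ q₂ δ)) := by
  classical
  have hcyc : ∀ i, ∃ (a : V i) (p : (H i).Walk a a), p.IsCycle := by
    intro i
    have := hH i
    unfold SimpleGraph.IsAcyclic at this
    push Not at this
    exact this
  choose a p hp using hcyc
  have := Fintype.ofFinite ι
  set g : ℕ := ∑ i, (p i).length with hg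
  have hfree : ∀ I, Simple I → AlmostRegular K I → GirthGT (cgraph I) g → Free H K I := by
    intro I h1 h2 h3
    refine ⟨h1, h2, fun i => isEmpty_of_girth (hp i) ?_ h3⟩
    exact Finset.single_le_sum (f := fun i => (p i).length) (fun _ _ => Nat.zero_le _)
      (Finset.mem_univ i)
  obtain ⟨F, hF, hFI⟩ := exists_reduction_LC d hq₁ hq₂ g ε h1 (h0.trans h1.le) h2
  have hCl : ∀ I, True → Free H K (F I) := fun I _ =>
    hfree _ (hFI I).1 ((hFI I).2.1 K hK2) (hFI I).2.2.1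
  exact ⟨fun h => h.of_reduction hF hCl (fun I => (hFI I).2.2.2.1) (fun I => (hFI I).2.2.2.2),
    fun h => h.of_reduction hF hCl (fun I => (hFI I).2.2.2.1) (fun I => (hFI I).2.2.2.2)⟩

end

theorem Yes.mono {d q₁ q₂ : ℕ} {ε ε' : ℝ} (h : ε ≤ ε') {I : Game} (hI : Yes d q₁ q₂ ε I) :
    Yes d q₁ q₂ ε' I := by
  obtain ⟨h7, L', M', h8⟩ := hI
  refine ⟨h7, L', M', le_trans ?_ h8⟩
  exact mul_le_mul_of_nonneg_right (by linarith) (by positivity)

theorem No.mono {d q₁ q₂ : ℕ} {δ δ' : ℝ} (h : δ ≤ δ') {I : Game} (hI : No d q₁ q₂ δ I) :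
    No d q₁ q₂ δ' I := by
  obtain ⟨h7, h8⟩ := hI
  refine ⟨h7, fun L' M' => (h8 L' M').trans ?_⟩
  exact mul_le_mul_of_nonneg_right h (by positivity)

theorem gamma_pos {h K : ℕ} (hK : 0 < K) {γ : ℝ}
    (hγ : γ = 1 / (96 * (h + 1) ^ 4 * (8 * K) ^ (2 * (h + 1)))) : 0 < γ := by
  have : (0 : ℝ) < K := by exact_mod_cast hK
  rw [hγ]
  positivity

end Pool.Agent.H697.LC
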