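import Pool.Agent.H697.UG.Complete

/-!
# Label cover with projections (d-to-1 games) on restricted constraint graphs: definitions

The left vertices carry the labels `0, ..., q₁ - 1`, the right vertices the labels
`0, ..., q₂ - 1`. The games, simplicity, near-regularity and the constraint graph are as for unique
games (`Pool/Agent/H697/UG/Defs.lean`).
-/

namespace Pool.Agent.H697.LC

open Pool.Agent.NPC Pool.Agent.H697.Forest Pool.Agent.H697.UG

/-- The list is a d-to-1 game: it is nonempty, and the table of every edge describes a map from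
the `q₁` labels of its left vertex to the `q₂` labels of its right vertex under which every label
has at most `d` preimages. -/
def IsGame (d q₁ q₂ : ℕ) (I : Game) : Prop :=
  I ≠ [] ∧ ∀ e ∈ I, e.2.length = q₁ ∧ (∀ x ∈ e.2, x < q₂) ∧ ∀ y, e.2.count y ≤ d

/-- The labelling `L` of the left vertices and `M` of the right vertices satisfies the edge `e`. -/
def Sat {q₁ q₂ : ℕ} (L : ℕ → Fin q₁) (M : ℕ → Fin q₂) (e : Edge) : Prop :=
  e.2[(L e.1.1 : ℕ)]? = some (M e.1.2 : ℕ)

instance {q₁ q₂ : ℕ} (L : ℕ → Fin q₁) (M : ℕ → Fin q₂) (e : Edge) : Decidable (Sat L M e) :=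
  inferInstanceAs (Decidable (_ = _))

/-- The number of satisfied edges. -/
def numSat {q₁ q₂ : ℕ} (I : Game) (L : ℕ → Fin q₁) (M : ℕ → Fin q₂) : ℕ :=
  (I.filter fun e => decide (Sat L M e)).length

/-- d-to-1 games of value at least `1 - ε` (for `ε = 0`: of value `1`). -/
def Yes (d q₁ q₂ : ℕ) (ε : ℝ) (I : Game) : Prop :=
  IsGame d q₁ q₂ I ∧ ∃ (L : ℕ → Fin q₁) (M : ℕ → Fin q₂), (1 - ε) * I.length ≤ numSat I L M

/-- d-to-1 games of value at most `δ`. -/
def No (d q₁ q₂ : ℕ) (δ : ℝ) (I : Game) : Prop :=
  IsGame d q₁ q₂ I ∧ ∀ (L : ℕ → Fin q₁) (M : ℕ → Fin q₂), (numSat I L M : ℝ) ≤ δ * I.length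

/-! ### The algorithm -/

/-- A candidate: two vertices and a label of the first. -/
abbrev Cand : Type := (ℕ × ℕ) × ℕ

/-- The edge `e = (u, v)` is satisfied if `u` has the label `x` and `v` gets its label from the left
vertex of the candidate. -/
def agree (R : Game) (c : Cand) (x : ℕ) (e : Edge) : Bool :=
  R.any fun e2 => decide (e2.1 = (c.1.1, e.1.2)) &&
    (decide (e.2[x]? = e2.2[c.2]?) && (e2.2[c.2]?).isSome)

/-- The number of edges at `u` which are satisfied if `u` has the label `x`. -/
def cnt (R : Game) (c : Cand) (u x : ℕ) : ℕ :=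
  (R.filter fun e => decide (e.1.1 = u) && agree R c x e).length

/-- The best label of `u`. -/
def bestL (q : ℕ) (R : Game) (c : Cand) (u : ℕ) : Option ℕ :=
  ((List.range q).filter fun x => (List.range q).all fun x' =>
    decide (cnt R c u x' ≤ cnt R c u x)).head?

/-- The left end of the edge `e = (u, v)` is joined to the right vertex of the candidate, and the
edge is satisfied if `u` has its best label and `v` gets its label from the left vertex of the
candidate. -/
def consistent (q : ℕ) (R : Game) (c : Cand) (e : Edge) : Bool :=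
  hasE R e.1.1 c.1.2 && match bestL q R c e.1.1 with
    | none => false
    | some x => agree R c x e

/-- The number of satisfied edges. -/
def score (q : ℕ) (R : Game) (c : Cand) : ℕ := (R.filter (consistent q R c)).length

/-- The candidate is good enough. -/
def test (q C : ℕ) (I R : Game) (c : Cand) : Bool :=
  I.all fun e => I.all fun e' => decide (degL I e.1.1 * degR I e'.1.2 ≤ C * score q R c)

/-- The edge meets the neighbourhoods of the two vertices of the candidate. -/
def near (R : Game) (c : Cand) (e : Edge) : Bool := hasE R e.1.1 c.1.2 || hasE R c.1.1 e.1.2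

/-- All candidates. -/
def cands (q : ℕ) (R : Game) : List Cand :=
  R.flatMap fun e => (List.range q).map fun α => (e.1, α)

/-- One step: take the first good candidate and delete the two neighbourhoods. -/
def step (q C : ℕ) (I R : Game) : Game :=
  match ((cands q R).filter (test q C I R)).head? with
  | none => R
  | some c => R.filter fun e => !(near R c e)

/-- What is left at the end. -/
def rest (q C : ℕ) (I : Game) : Game := (step q C I)^[I.length] I

/-- The answer of the algorithm. -/
def accept (q C : ℕ) (I : Game) : Bool := decide (2 * (rest q C I).length < I.length)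

/-! ### The algorithm runs in polynomial time -/

section
variable {α : Type} [TEnc α]

theorem poly_agree {R : α → Game} {c : α → Cand} {x : α → ℕ} {e : α → Edge} (hR : Poly R)
    (hc : Poly c) (hx : Poly x) (he : Poly e) :
    Poly (fun a => agree (R a) (c a) (x a) (e a)) := by
  unfold agree
  refine Poly.any (p := fun a (e2 : Edge) => decide (e2.1 = ((c a).1.1, (e a).1.2)) &&
    (decide ((e a).2[x a]? = e2.2[(c a).2]?) && (e2.2[(c a).2]?).isSome)) hR ?_
  have hc' : Poly (fun p : α × Edge => c p.1) := hc.comp (Poly.fst Poly.id)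
  have hx' : Poly (fun p : α × Edge => x p.1) := hx.comp (Poly.fst Poly.id)
  have he' : Poly (fun p : α × Edge => e p.1) := he.comp (Poly.fst Poly.id)
  have h2 : Poly (fun p : α × Edge => p.2) := Poly.snd Poly.id
  have j : Poly (fun p : α × Edge => p.2.2[(c p.1).2]?) :=
    Poly.getElem? (Poly.snd h2) (Poly.snd hc')
  exact Poly.and (Poly.decide_eq (Poly.fst h2)
    (Poly.pair (Poly.fst (Poly.fst hc')) (Poly.snd (Poly.fst he'))))
    (Poly.and (Poly.decide_eq (Poly.getElem? (Poly.snd he') hx') j) (Poly.isSome j))

theorem poly_cnt {R : α → Game} {c : α → Cand} {u x : α → ℕ} (hR : Poly R)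
    (hc : Poly c) (hu : Poly u) (hx : Poly x) :
    Poly (fun a => cnt (R a) (c a) (u a) (x a)) := by
  unfold cnt
  refine Poly.length (Poly.filter (p := fun a (e : Edge) =>
    decide (e.1.1 = u a) && agree (R a) (c a) (x a) e) hR ?_)
  exact Poly.and (Poly.decide_eq (Poly.fst (Poly.fst (Poly.snd Poly.id)))
    (hu.comp (Poly.fst Poly.id)))
    (poly_agree (hR.comp (Poly.fst Poly.id)) (hc.comp (Poly.fst Poly.id))
      (hx.comp (Poly.fst Poly.id)) (Poly.snd Poly.id))

theorem poly_bestL (q : ℕ) {R : α → Game} {c : α → Cand} {u : α → ℕ} (hR : Poly R)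
    (hc : Poly c) (hu : Poly u) :
    Poly (fun a => bestL q (R a) (c a) (u a)) := by
  unfold bestL
  refine Poly.head? (Poly.filter (p := fun a x => (List.range q).all fun x' =>
    decide (cnt (R a) (c a) (u a) x' ≤ cnt (R a) (c a) (u a) x)) (NPC.Poly.const _) ?_)
  refine Poly.all (p := fun (p : α × ℕ) x' =>
    decide (cnt (R p.1) (c p.1) (u p.1) x' ≤ cnt (R p.1) (c p.1) (u p.1) p.2))
    (NPC.Poly.const _) ?_
  have f : Poly (fun p : (α × ℕ) × ℕ => p.1.1) := Poly.fst (Poly.fst Poly.id)
  exact Poly.decide_le
    (poly_cnt (hR.comp f) (hc.comp f) (hu.comp f) (Poly.snd Poly.id))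
    (poly_cnt (hR.comp f) (hc.comp f) (hu.comp f) (Poly.snd (Poly.fst Poly.id)))

theorem poly_consistent (q : ℕ) {R : α → Game} {c : α → Cand} {e : α → Edge} (hR : Poly R)
    (hc : Poly c) (he : Poly e) :
    Poly (fun a => consistent q (R a) (c a) (e a)) := by
  unfold consistent
  refine Poly.and (poly_hasE hR (Poly.fst (Poly.fst he)) (Poly.snd (Poly.fst hc))) ?_
  refine (Poly.optCases (h := fun a x => agree (R a) (c a) x (e a))
    (poly_bestL q hR hc (Poly.fst (Poly.fst he))) (NPC.Poly.const false)
    (poly_agree (hR.comp (Poly.fst Poly.id)) (hc.comp (Poly.fst Poly.id)) (Poly.snd Poly.id)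
      (he.comp (Poly.fst Poly.id)))).congr fun a => ?_
  cases bestL q (R a) (c a) (e a).1.1 <;> rfl

theorem poly_score (q : ℕ) {R : α → Game} {c : α → Cand} (hR : Poly R)
    (hc : Poly c) : Poly (fun a => score q (R a) (c a)) := by
  unfold score
  exact Poly.length (Poly.filter (p := fun a (e : Edge) => consistent q (R a) (c a) e) hR
    (poly_consistent q (hR.comp (Poly.fst Poly.id)) (hc.comp (Poly.fst Poly.id))
      (Poly.snd Poly.id)))

theorem poly_test (q C : ℕ) :
    Poly (fun p : (Game × Game) × Cand => test q C p.1.1 p.1.2 p.2) := by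
  unfold test
  refine Poly.all (p := fun (p : (Game × Game) × Cand) (e : Edge) => p.1.1.all fun e' =>
    decide (degL p.1.1 e.1.1 * degR p.1.1 e'.1.2 ≤ C * score q p.1.2 p.2))
    (Poly.fst (Poly.fst Poly.id)) ?_
  refine Poly.all (p := fun (p : ((Game × Game) × Cand) × Edge) (e' : Edge) =>
    decide (degL p.1.1.1 p.2.1.1 * degR p.1.1.1 e'.1.2 ≤ C * score q p.1.1.2 p.1.2))
    (Poly.fst (Poly.fst (Poly.fst Poly.id))) ?_
  have i : Poly (fun p : (((Game × Game) × Cand) × Edge) × Edge => p) := Poly.id
  refine Poly.decide_le (Poly.mul (poly_degL (Poly.fst (Poly.fst (Poly.fst (Poly.fst i))))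
    (Poly.fst (Poly.fst (Poly.snd (Poly.fst i)))))
    (poly_degR (Poly.fst (Poly.fst (Poly.fst (Poly.fst i)))) (Poly.snd (Poly.fst (Poly.snd i)))))
    (Poly.mul (NPC.Poly.const C) ?_)
  exact poly_score q (Poly.snd (Poly.fst (Poly.fst (Poly.fst i))))
    (Poly.snd (Poly.fst (Poly.fst i)))

theorem poly_cands (q : ℕ) : Poly (cands q) := by
  unfold cands
  refine Poly.flatMap (F := fun (_ : Game) (e : Edge) => (List.range q).map fun α =>
    ((e.1, α) : Cand)) Poly.id ?_
  refine NPC.Poly.map (F := fun (p : Game × Edge) (α : ℕ) => ((p.2.1, α) : Cand))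
    (NPC.Poly.const _) ?_
  exact Poly.pair (Poly.fst (Poly.snd (Poly.fst Poly.id))) (Poly.snd Poly.id)

theorem poly_step (q C : ℕ) : Poly (fun p : Game × Game => step q C p.1 p.2) := by
  have h1 : Poly (fun p : Game × Game =>
      ((cands q p.2).filter (test q C p.1 p.2)).head?) :=
    Poly.head? (Poly.filter (p := fun (p : Game × Game) (c : Cand) => test q C p.1 p.2 c)
      ((poly_cands q).comp (Poly.snd Poly.id)) (poly_test q C))
  refine (Poly.optCases (g := fun p : Game × Game => p.2)
    (h := fun (p : Game × Game) (c : Cand) => p.2.filter fun e => !(near p.2 c e)) h1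
    (Poly.snd Poly.id) ?_).congr fun p => ?_
  · refine Poly.filter (p := fun (p : (Game × Game) × Cand) (e : Edge) => !(near p.1.2 p.2 e))
      (Poly.snd (Poly.fst Poly.id)) (Poly.not ?_)
    unfold near
    have i : Poly (fun p : ((Game × Game) × Cand) × Edge => p) := Poly.id
    exact Poly.or (poly_hasE (Poly.snd (Poly.fst (Poly.fst i))) (Poly.fst (Poly.fst (Poly.snd i)))
      (Poly.snd (Poly.fst (Poly.snd (Poly.fst i)))))
      (poly_hasE (Poly.snd (Poly.fst (Poly.fst i))) (Poly.fst (Poly.fst (Poly.snd (Poly.fst i))))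
      (Poly.snd (Poly.fst (Poly.snd i))))
  · unfold step
    cases ((cands q p.2).filter (test q C p.1 p.2)).head? <;> rfl

end

theorem step_sublist (q C : ℕ) (I R : Game) : (step q C I R).Sublist R := by
  unfold step
  cases ((cands q R).filter (test q C I R)).head? with
  | none => exact List.Sublist.refl _
  | some c => exact List.filter_sublist

theorem iterate_sublist (q C : ℕ) (I : Game) (k : ℕ) : ((step q C I)^[k] I).Sublist I := by
  induction k with
  | zero => exact List.Sublist.refl _
  | succ k ih =>
    rw [Function.iterate_succ_apply']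
    exact (step_sublist q C I _).trans ih

theorem poly_accept (q C : ℕ) : Poly (accept q C) := by
  unfold accept rest
  have h1 : Poly (fun I : Game => (step q C I)^[I.length] I) :=
    Poly.iterLen (F := fun (I : Game) (R : Game) => step q C I R) Poly.id Poly.id (poly_step q C)
      Polynomial.X (fun I k _ => by
        rw [Polynomial.eval_X]
        exact sz_sublist (iterate_sublist q C I k))
  exact Poly.decide_lt (Poly.mul (NPC.Poly.const 2) (Poly.length h1)) (Poly.length Poly.id)

end Pool.Agent.H697.LC
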