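import Pool.Agent.H697.LC.Defs

/-!
# Soundness of the algorithm for projection games
-/

namespace Pool.Agent.H697.LC

open Pool.Agent.NPC Pool.Agent.H697.Forest Pool.Agent.H697.UG

theorem agree_iff (R : Game) (c : Cand) (x : ℕ) (e : Edge) :
    agree R c x e = true ↔ ∃ e2 ∈ R, e2.1 = (c.1.1, e.1.2) ∧ ∃ y, e.2[x]? = some y ∧
        e2.2[c.2]? = some y := by
  unfold agree
  simp only [List.any_eq_true, Bool.and_eq_true, decide_eq_true_eq]
  constructor
  · rintro ⟨e2, h3, h4, h7, h8⟩
    obtain ⟨y, hy⟩ := Option.isSome_iff_exists.1 h8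
    exact ⟨e2, h3, h4, y, h7.trans hy, hy⟩
  · rintro ⟨e2, h3, h4, y, h7, h8⟩
    exact ⟨e2, h3, h4, h7.trans h8.symm, by rw [h8]; rfl⟩

theorem bestL_spec {q : ℕ} {R : Game} {c : Cand} {u x : ℕ} (h : bestL q R c u = some x) :
    x < q ∧ ∀ x' < q, cnt R c u x' ≤ cnt R c u x := by
  have h1 := List.mem_of_mem_head? h
  rw [List.mem_filter, List.mem_range, List.all_eq_true] at h1
  refine ⟨h1.1, fun x' hx' => ?_⟩
  have := h1.2 x' (List.mem_range.2 hx')
  rwa [decide_eq_true_eq] at this

theorem exists_bestL {q : ℕ} (hq : 0 < q) (R : Game) (c : Cand) (u : ℕ) :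
    ∃ x, bestL q R c u = some x := by
  obtain ⟨x, hx, hmax⟩ := Finset.exists_max_image (Finset.range q) (cnt R c u)
    ⟨0, Finset.mem_range.2 hq⟩
  have hmem : x ∈ (List.range q).filter fun x => (List.range q).all fun x' =>
      decide (cnt R c u x' ≤ cnt R c u x) := by
    rw [List.mem_filter, List.all_eq_true]
    refine ⟨List.mem_range.2 (Finset.mem_range.1 hx), fun x' hx' => ?_⟩
    rw [decide_eq_true_eq]
    exact hmax x' (Finset.mem_range.2 (List.mem_range.1 hx'))
  unfold bestL
  cases hd : ((List.range q).filter fun x => (List.range q).all fun x' =>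
      decide (cnt R c u x' ≤ cnt R c u x)).head? with
  | none =>
    rw [List.head?_eq_none_iff] at hd
    rw [hd] at hmem
    simp at hmem
  | some y => exact ⟨y, rfl⟩

theorem consistent_iff (q : ℕ) (R : Game) (c : Cand) (e : Edge) :
    consistent q R c e = true ↔ (∃ e1 ∈ R, e1.1 = (e.1.1, c.1.2)) ∧
      ∃ x, bestL q R c e.1.1 = some x ∧ agree R c x e = true := by
  unfold consistent
  rw [Bool.and_eq_true, hasE_iff]
  cases h : bestL q R c e.1.1 with
  | none => simp
  | some x => simp

/-- The invariant of the algorithm. -/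
def Inv (q₁ q₂ C : ℕ) (I R : Game) : Prop :=
  ∃ (L : ℕ → Fin q₁) (M : ℕ → Fin q₂) (X Y : Finset ℕ),
    R = I.filter (fun e => decide (e.1.1 ∉ X ∧ e.1.2 ∉ Y)) ∧
    I.length ≤ R.length +
      2 * C * (I.filter fun e => decide (e.1.1 ∈ X ∧ e.1.2 ∈ Y ∧ Sat L M e)).length

theorem step_inv {d q₁ q₂ C : ℕ} {I R : Game} (hG : IsGame d q₁ q₂ I) (hS : Simple I)
    (h : Inv q₁ q₂ C I R) : Inv q₁ q₂ C I (step q₁ C I R) := by
  classical
  obtain ⟨L, M, X, Y, hR, hlen⟩ := h
  unfold step
  cases hc : ((cands q₁ R).filter (test q₁ C I R)).head? with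
  | none => exact ⟨L, M, X, Y, hR, hlen⟩
  | some c =>
    have hmem := List.mem_of_mem_head? hc
    rw [List.mem_filter] at hmem
    obtain ⟨hcand, htest⟩ := hmem
    have hRI : R.Sublist I := by rw [hR]; exact List.filter_sublist
    have hRmem : ∀ e, e ∈ R ↔ e ∈ I ∧ e.1.1 ∉ X ∧ e.1.2 ∉ Y := by
      intro e
      rw [hR, List.mem_filter, decide_eq_true_eq]
    simp only [cands, List.mem_flatMap, List.mem_map, List.mem_range] at hcand
    obtain ⟨e0, he0, α, hα, rfl⟩ := hcand
    obtain ⟨⟨u0, v0⟩, t0⟩ := e0
    simp only [test, List.all_eq_true, decide_eq_true_eq] at htest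
    set c : Cand := ((u0, v0), α) with hcdef
    set A : Finset ℕ := ((R.filter fun e => decide (e.1.2 = v0)).map fun e => e.1.1).toFinset
      with hA
    set B : Finset ℕ := ((R.filter fun e => decide (e.1.1 = u0)).map fun e => e.1.2).toFinset
      with hB
    have hAmem : ∀ u, u ∈ A ↔ ∃ e ∈ R, e.1 = (u, v0) := by
      intro u
      simp only [hA, List.mem_toFinset, List.mem_map, List.mem_filter, decide_eq_true_eq]
      constructor
      · rintro ⟨e, ⟨h1, h2⟩, h3⟩
        exact ⟨e, h1, Prod.ext h3 h2⟩
      · rintro ⟨e, h1, h2⟩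
        exact ⟨e, ⟨h1, by rw [h2]⟩, by rw [h2]⟩
    have hBmem : ∀ v, v ∈ B ↔ ∃ e ∈ R, e.1 = (u0, v) := by
      intro v
      simp only [hB, List.mem_toFinset, List.mem_map, List.mem_filter, decide_eq_true_eq]
      constructor
      · rintro ⟨e, ⟨h1, h2⟩, h3⟩
        exact ⟨e, h1, Prod.ext h2 h3⟩
      · rintro ⟨e, h1, h2⟩
        exact ⟨e, ⟨h1, by rw [h2]⟩, by rw [h2]⟩
    have hAX : ∀ u ∈ A, u ∉ X := by
      intro u hu
      obtain ⟨e, he, h2⟩ := (hAmem u).1 hu
      have := ((hRmem e).1 he).2.1
      rwa [h2] at this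
    have hBY : ∀ v ∈ B, v ∉ Y := by
      intro v hv
      obtain ⟨e, he, h2⟩ := (hBmem v).1 hv
      have := ((hRmem e).1 he).2.2
      rwa [h2] at this
    have hnear : ∀ e, near R c e = true ↔ e.1.1 ∈ A ∨ e.1.2 ∈ B := by
      intro e
      unfold near
      rw [Bool.or_eq_true, hasE_iff, hasE_iff, hAmem, hBmem]
    -- the labels
    let PL : ℕ → Fin q₁ → Prop := fun u x => u ∈ A ∧ bestL q₁ R c u = some (x : ℕ)
    let PM : ℕ → Fin q₂ → Prop := fun v y => ∃ e2 ∈ R, e2.1 = (u0, v) ∧ e2.2[α]? = some (y : ℕ)
    let L' : ℕ → Fin q₁ := fun u => if h : ∃ x, PL u x then h.choose else L u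
    let M' : ℕ → Fin q₂ := fun v => if h : ∃ y, PM v y then h.choose else M v
    have hL'uniq : ∀ u x, PL u x → L' u = x := by
      intro u x hx
      have hex : ∃ x, PL u x := ⟨x, hx⟩
      have h1 : L' u = hex.choose := dif_pos hex
      rw [h1]
      apply Fin.ext
      exact Option.some_injective _ (hex.choose_spec.2.symm.trans hx.2)
    have hM'uniq : ∀ v y, PM v y → M' v = y := by
      intro v y hy
      have hex : ∃ y, PM v y := ⟨y, hy⟩
      have h1 : M' v = hex.choose := dif_pos hex
      obtain ⟨e1, he1, h2, h3⟩ := hex.choose_spec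
      obtain ⟨e2, he2, h4, h5⟩ := hy
      obtain rfl : e1 = e2 := unique_edge hS (hRI.subset he1) (hRI.subset he2) (h2.trans h4.symm)
      rw [h1]
      apply Fin.ext
      exact Option.some_injective _ (h3.symm.trans h5)
    have hL'X : ∀ u ∈ X, L' u = L u := by
      intro u hu
      refine dif_neg ?_
      rintro ⟨x, h1, -⟩
      exact hAX u h1 hu
    have hM'Y : ∀ v ∈ Y, M' v = M v := by
      intro v hv
      refine dif_neg ?_
      rintro ⟨x, e1, he1, h2, -⟩
      exact hBY v ((hBmem v).2 ⟨e1, he1, h2⟩) hv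
    have hcons : ∀ e ∈ R, consistent q₁ R c e = true → e.1.1 ∈ A ∧ e.1.2 ∈ B ∧ Sat L' M' e := by
      intro e he hcon
      obtain ⟨⟨e1, he1, h1⟩, x, hx, hag⟩ := (consistent_iff q₁ R c e).1 hcon
      obtain ⟨e2, he2, h2, y, h4, h5⟩ := (agree_iff R c x e).1 hag
      have hxq : x < q₁ := (bestL_spec hx).1
      have hy : y < q₂ := (hG.2 e (hRI.subset he)).2.1 y (List.mem_of_getElem? h4)
      have hA' : e.1.1 ∈ A := (hAmem _).2 ⟨e1, he1, h1⟩
      refine ⟨hA', (hBmem _).2 ⟨e2, he2, h2⟩, ?_⟩
      have h6 : L' e.1.1 = ⟨x, hxq⟩ := hL'uniq _ _ ⟨hA', hx⟩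
      have h7 : M' e.1.2 = ⟨y, hy⟩ := hM'uniq _ _ ⟨e2, he2, h2, h5⟩
      unfold Sat
      rw [h6, h7]
      exact h4
    refine ⟨L', M', X ∪ A, Y ∪ B, ?_, ?_⟩
    · change R.filter (fun e => !(near R c e)) = _
      have h0 : R.filter (fun e => !(near R c e)) =
          (I.filter (fun e => decide (e.1.1 ∉ X ∧ e.1.2 ∉ Y))).filter
            (fun e => !(near R c e)) := by rw [← hR]
      rw [h0, List.filter_filter]
      refine List.filter_congr fun e _ => ?_
      have h1 := hnear e
      simp only [Finset.mem_union, not_or]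
      cases hn : near R c e with
      | false =>
        rw [hn] at h1
        have h2 : ¬ (e.1.1 ∈ A ∨ e.1.2 ∈ B) := fun h => by simpa using h1.2 h
        push Not at h2
        simp only [Bool.not_false, Bool.true_and, decide_eq_decide]
        tauto
      | true =>
        rw [hn] at h1
        have h2 := h1.1 rfl
        simp only [Bool.not_true, Bool.false_and]
        symm
        rw [decide_eq_false_iff_not]
        tauto
    · -- counting
      have hsat : (I.filter fun e => decide (e.1.1 ∈ X ∧ e.1.2 ∈ Y ∧ Sat L M e)).length +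
          score q₁ R c ≤
          (I.filter fun e => decide (e.1.1 ∈ X ∪ A ∧ e.1.2 ∈ Y ∪ B ∧ Sat L' M' e)).length := by
        have h1 : score q₁ R c = (I.filter fun e => consistent q₁ R c e &&
            decide (e.1.1 ∉ X ∧ e.1.2 ∉ Y)).length := by
          unfold score
          conv_lhs => rw [hR]
          rw [List.filter_filter, ← hR]
        rw [h1]
        refine length_filter_add I _ _ _ (fun e he hp => ?_) (fun e he hq => ?_)
        · rw [decide_eq_true_eq] at hp
          refine ⟨?_, ?_⟩
          · rw [decide_eq_true_eq]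
            refine ⟨Finset.mem_union_left _ hp.1, Finset.mem_union_left _ hp.2.1, ?_⟩
            unfold Sat
            rw [hL'X _ hp.1, hM'Y _ hp.2.1]
            exact hp.2.2
          · rw [Bool.and_eq_false_iff]
            right
            rw [decide_eq_false_iff_not]
            exact fun h => h.1 hp.1
        · rw [Bool.and_eq_true, decide_eq_true_eq] at hq
          rw [decide_eq_true_eq]
          have := hcons e ((hRmem e).2 ⟨he, hq.2⟩) hq.1
          exact ⟨Finset.mem_union_right _ this.1, Finset.mem_union_right _ this.2.1, this.2.2⟩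
      have hrem : (R.filter fun e => near R c e).length ≤ 2 * (C * score q₁ R c) := by
        have h1 : (R.filter fun e => near R c e).length ≤
            (R.filter fun e => decide (e.1.1 ∈ A)).length +
            (R.filter fun e => decide (e.1.2 ∈ B)).length := by
          refine le_trans ?_ (length_filter_or R _ _)
          refine length_filter_le R _ _ fun e _ hn => ?_
          rw [Bool.or_eq_true, decide_eq_true_eq, decide_eq_true_eq]
          exact (hnear e).1 hn
        have he0I := hRI.subset he0
        have hA2 : (R.filter fun e => decide (e.1.1 ∈ A)).length ≤ C * score q₁ R c := by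
          rw [length_filter_mem R (fun e => e.1.1) A]
          have hpos : 0 < degR I v0 := by
            unfold degR
            exact List.length_pos_of_mem (List.mem_filter.2 ⟨he0I, by simp⟩)
          have hcardA : A.card ≤ degR I v0 := by
            refine le_trans (List.toFinset_card_le _) ?_
            rw [List.length_map]
            exact degR_le R I hRI v0
          have h2 : ∀ u ∈ A, (R.filter fun e => decide (e.1.1 = u)).length * degR I v0 ≤
              C * score q₁ R c := by
            intro u hu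
            obtain ⟨e, he, h3⟩ := (hAmem u).1 hu
            have h4 := htest e (hRI.subset he) _ he0I
            rw [h3] at h4
            refine le_trans (Nat.mul_le_mul_right _ ?_) h4
            exact degL_le R I hRI u
          have h3 : (∑ u ∈ A, (R.filter fun e => decide (e.1.1 = u)).length) * degR I v0 ≤
              (C * score q₁ R c) * degR I v0 := by
            rw [Finset.sum_mul]
            refine (Finset.sum_le_sum h2).trans ?_
            rw [Finset.sum_const, smul_eq_mul, mul_comm]
            exact Nat.mul_le_mul_left _ hcardA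
          exact Nat.le_of_mul_le_mul_right h3 hpos
        have hB2 : (R.filter fun e => decide (e.1.2 ∈ B)).length ≤ C * score q₁ R c := by
          rw [length_filter_mem R (fun e => e.1.2) B]
          have hpos : 0 < degL I u0 := by
            unfold degL
            exact List.length_pos_of_mem (List.mem_filter.2 ⟨he0I, by simp⟩)
          have hcardB : B.card ≤ degL I u0 := by
            refine le_trans (List.toFinset_card_le _) ?_
            rw [List.length_map]
            exact degL_le R I hRI u0
          have h2 : ∀ v ∈ B, (R.filter fun e => decide (e.1.2 = v)).length * degL I u0 ≤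
              C * score q₁ R c := by
            intro v hv
            obtain ⟨e, he, h3⟩ := (hBmem v).1 hv
            have h4 := htest _ he0I e (hRI.subset he)
            rw [h3] at h4
            refine le_trans ?_ h4
            rw [mul_comm]
            exact Nat.mul_le_mul_left _ (degR_le R I hRI v)
          have h3 : (∑ v ∈ B, (R.filter fun e => decide (e.1.2 = v)).length) * degL I u0 ≤
              (C * score q₁ R c) * degL I u0 := by
            rw [Finset.sum_mul]
            refine (Finset.sum_le_sum h2).trans ?_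
            rw [Finset.sum_const, smul_eq_mul, mul_comm]
            exact Nat.mul_le_mul_left _ hcardB
          exact Nat.le_of_mul_le_mul_right h3 hpos
        omega
      have h5 := length_filter_not R (fun e => near R c e)
      have h6 : 2 * C * ((I.filter fun e => decide (e.1.1 ∈ X ∧ e.1.2 ∈ Y ∧ Sat L M e)).length +
          score q₁ R c) ≤ 2 * C *
          (I.filter fun e => decide (e.1.1 ∈ X ∪ A ∧ e.1.2 ∈ Y ∪ B ∧ Sat L' M' e)).length :=
        Nat.mul_le_mul_left _ hsat
      rw [mul_add] at h6
      have h7 : 2 * C * score q₁ R c = 2 * (C * score q₁ R c) := by ring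
      change I.length ≤ (R.filter (fun e => !(near R c e))).length + _
      omega

theorem rest_inv {d q₁ q₂ C : ℕ} {I : Game} (hq₁ : 0 < q₁) (hq₂ : 0 < q₂)
    (hG : IsGame d q₁ q₂ I) (hS : Simple I) (k : ℕ) :
    Inv q₁ q₂ C I ((step q₁ C I)^[k] I) := by
  induction k with
  | zero =>
    refine ⟨fun _ => ⟨0, hq₁⟩, fun _ => ⟨0, hq₂⟩, ∅, ∅, ?_, ?_⟩
    · simp
    · simp
  | succ k ih =>
    rw [Function.iterate_succ_apply']
    exact step_inv hG hS ih

/-- If the algorithm accepts, some labelling satisfies more than `m / (4 C)` of the edges. -/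
theorem sound {d q₁ q₂ C : ℕ} {I : Game} (hq₁ : 0 < q₁) (hq₂ : 0 < q₂) (hG : IsGame d q₁ q₂ I)
    (hS : Simple I) (h : accept q₁ C I = true) :
    ∃ (L : ℕ → Fin q₁) (M : ℕ → Fin q₂), I.length < 4 * C * numSat I L M := by
  unfold accept rest at h
  rw [decide_eq_true_eq] at h
  obtain ⟨L, M, X, Y, -, h1⟩ := rest_inv (C := C) hq₁ hq₂ hG hS I.length
  refine ⟨L, M, ?_⟩
  have h2 : (I.filter fun e => decide (e.1.1 ∈ X ∧ e.1.2 ∈ Y ∧ Sat L M e)).length ≤
      numSat I L M := by
    refine length_filter_le I _ _ fun e _ he => ?_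
    rw [decide_eq_true_eq] at he ⊢
    exact he.2.2
  have h3 : 2 * C * (I.filter fun e => decide (e.1.1 ∈ X ∧ e.1.2 ∈ Y ∧ Sat L M e)).length ≤
      2 * C * numSat I L M := Nat.mul_le_mul_left _ h2
  have h4 : 4 * C * numSat I L M = 2 * (2 * C * numSat I L M) := by ring
  omega

end Pool.Agent.H697.LC
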